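import Pool.Agent.K3h74.GL.Stm

/-!
# Brick BELL: the Bellman function
-/

set_option autoImplicit false

open MeasureTheory Set

namespace Pool.Agent.K3h33.GL

open Pool.Agent.K3h74.GL

/-- `u` has the first derivative `u1` and the second derivative `u2` in `S`. -/
structure C2 (S : Set ℝ) (u u1 u2 : ℝ → ℝ) : Prop where
  d1 : ∀ t ∈ S, HasDerivAt u (u1 t) t
  d2 : ∀ t ∈ S, HasDerivAt u1 (u2 t) t

/-- second derivative of `f ^ 2 / X` -/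
noncomputable def q2 (f f1 f2 X X1 X2 : ℝ) : ℝ :=
  2 / X * (f1 - f * X1 / X) ^ 2 + 2 * f * f2 / X - f ^ 2 * X2 / X ^ 2

/-- second derivative of `2 V - 1 / (W ^ 2 V)` -/
noncomputable def n2 (W W1 W2 V V1 V2 : ℝ) : ℝ :=
  2 * V2 + 2 * W2 / (W ^ 3 * V) + V2 / (W ^ 2 * V ^ 2) -
    1 / (W ^ 2 * V) * (6 * (W1 / W) ^ 2 + 4 * (W1 / W) * (V1 / V) + 2 * (V1 / V) ^ 2)

lemma C2.quot {S : Set ℝ} {f f1 f2 X X1 X2 : ℝ → ℝ} (hf : C2 S f f1 f2) (hX : C2 S X X1 X2)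
    (h0 : ∀ t ∈ S, X t ≠ 0) :
    C2 S (fun t => f t ^ 2 / X t) (fun t => 2 * f t * f1 t / X t - f t ^ 2 * X1 t / X t ^ 2)
      (fun t => q2 (f t) (f1 t) (f2 t) (X t) (X1 t) (X2 t)) := by
  constructor
  · intro t ht
    have h := ((hf.d1 t ht).pow 2).div (hX.d1 t ht) (h0 t ht)
    have h0' := h0 t ht
    refine h.congr_deriv ?_
    simp only [Pi.pow_apply]
    field_simp
    push_cast
    ring
  · intro t ht
    have h0' := h0 t ht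
    have ha := (((hf.d1 t ht).const_mul 2).mul (hf.d2 t ht)).div (hX.d1 t ht) h0'
    have hb := (((hf.d1 t ht).pow 2).mul (hX.d2 t ht)).div ((hX.d1 t ht).pow 2)
      (pow_ne_zero 2 h0')
    refine (ha.sub hb).congr_deriv ?_
    unfold q2
    simp only [Pi.mul_apply, Pi.pow_apply]
    field_simp
    push_cast
    ring

lemma C2.nfun {S : Set ℝ} {W W1 W2 V V1 V2 : ℝ → ℝ} (hW : C2 S W W1 W2) (hV : C2 S V V1 V2)
    (hW0 : ∀ t ∈ S, W t ≠ 0) (hV0 : ∀ t ∈ S, V t ≠ 0) :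
    C2 S (fun t => 2 * V t - 1 / (W t ^ 2 * V t))
      (fun t => 2 * V1 t + 2 * W1 t / (W t ^ 3 * V t) + V1 t / (W t ^ 2 * V t ^ 2))
      (fun t => n2 (W t) (W1 t) (W2 t) (V t) (V1 t) (V2 t)) := by
  constructor
  · intro t ht
    have hw := hW0 t ht
    have hv := hV0 t ht
    have h1 := ((hW.d1 t ht).pow 2).mul (hV.d1 t ht)
    have h2 := (hasDerivAt_const t (1 : ℝ)).div h1 (mul_ne_zero (pow_ne_zero 2 hw) hv)
    refine (((hV.d1 t ht).const_mul 2).sub h2).congr_deriv ?_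
    simp only [Pi.mul_apply, Pi.pow_apply]
    field_simp
    push_cast
    ring
  · intro t ht
    have hw := hW0 t ht
    have hv := hV0 t ht
    have h1 := ((hW.d2 t ht).const_mul 2).div (((hW.d1 t ht).pow 3).mul (hV.d1 t ht))
      (mul_ne_zero (pow_ne_zero 3 hw) hv)
    have h2 := (hV.d2 t ht).div (((hW.d1 t ht).pow 2).mul ((hV.d1 t ht).pow 2))
      (mul_ne_zero (pow_ne_zero 2 hw) (pow_ne_zero 2 hv))
    refine ((((hV.d2 t ht).const_mul 2).add h1).add h2).congr_deriv ?_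
    unfold n2
    simp only [Pi.mul_apply, Pi.pow_apply]
    field_simp
    push_cast
    ring

lemma C2.comb {S : Set ℝ} {F F1 F2 A A1 A2 B B1 B2 : ℝ → ℝ} (hF : C2 S F F1 F2)
    (hA : C2 S A A1 A2) (hB : C2 S B B1 B2) (p q : ℝ) :
    C2 S (fun t => p * (F t - A t) + q * (F t - B t))
      (fun t => p * (F1 t - A1 t) + q * (F1 t - B1 t))
      (fun t => p * (F2 t - A2 t) + q * (F2 t - B2 t)) :=
  ⟨fun t ht => (((hF.d1 t ht).sub (hA.d1 t ht)).const_mul p).add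
      (((hF.d1 t ht).sub (hB.d1 t ht)).const_mul q),
    fun t ht => (((hF.d2 t ht).sub (hA.d2 t ht)).const_mul p).add
      (((hF.d2 t ht).sub (hB.d2 t ht)).const_mul q)⟩

/-- the inequality in one direction -/
lemma dir_ineq (Q f W V f1 W1 V1 : ℝ) (hW : 0 < W) (hV : 0 < V) (h1 : 1 ≤ W * V)
    (h2 : W * V ≤ Q) :
    W * f1 ^ 2 ≤ Q * (2 / V * (f1 - f * V1 / V) ^ 2) + 6 * Q ^ 3 *
      (f ^ 2 / (2 * V - 1 / (W ^ 2 * V)) ^ 2 * (1 / (W ^ 2 * V) *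
        (6 * (W1 / W) ^ 2 + 4 * (W1 / W) * (V1 / V) + 2 * (V1 / V) ^ 2))) := by
  have hQ : 0 < Q := by linarith
  have hN1 : V ≤ 2 * V - 1 / (W ^ 2 * V) := by
    have : 1 / (W ^ 2 * V) ≤ V := by
      rw [div_le_iff₀ (by positivity)]
      nlinarith
    linarith
  have hN2 : 2 * V - 1 / (W ^ 2 * V) ≤ 2 * V := by
    have : 0 < 1 / (W ^ 2 * V) := by positivity
    linarith
  set N := 2 * V - 1 / (W ^ 2 * V) with hN
  have hN0 : 0 < N := lt_of_lt_of_le hV hN1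
  have e1 : 4 / 3 * (V1 / V) ^ 2 ≤ 6 * (W1 / W) ^ 2 + 4 * (W1 / W) * (V1 / V) + 2 * (V1 / V) ^ 2 := by
    nlinarith [sq_nonneg (W1 / W + V1 / V / 3)]
  have e2 : V / Q ^ 2 ≤ 1 / (W ^ 2 * V) := by
    rw [div_le_div_iff₀ (by positivity) (by positivity)]
    nlinarith [mul_pos hW hV]
  have e3 : f ^ 2 / (4 * V ^ 2) ≤ f ^ 2 / N ^ 2 := by
    apply div_le_div_of_nonneg_left (sq_nonneg f) (by positivity)
    nlinarith
  have e4 : f ^ 2 / (4 * V ^ 2) * (V / Q ^ 2 * (4 / 3 * (V1 / V) ^ 2)) ≤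
      f ^ 2 / N ^ 2 * (1 / (W ^ 2 * V) *
        (6 * (W1 / W) ^ 2 + 4 * (W1 / W) * (V1 / V) + 2 * (V1 / V) ^ 2)) := by
    apply mul_le_mul e3 _ (by positivity) (by positivity)
    exact mul_le_mul e2 e1 (by positivity) (by positivity)
  have e5 : 6 * Q ^ 3 * (f ^ 2 / (4 * V ^ 2) * (V / Q ^ 2 * (4 / 3 * (V1 / V) ^ 2))) =
      2 * (Q / V) * (f * V1 / V) ^ 2 := by
    field_simp
    ring
  have e6 : 6 * Q ^ 3 * (f ^ 2 / (4 * V ^ 2) * (V / Q ^ 2 * (4 / 3 * (V1 / V) ^ 2))) ≤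
      6 * Q ^ 3 * (f ^ 2 / N ^ 2 * (1 / (W ^ 2 * V) *
        (6 * (W1 / W) ^ 2 + 4 * (W1 / W) * (V1 / V) + 2 * (V1 / V) ^ 2))) :=
    mul_le_mul_of_nonneg_left e4 (by positivity)
  have e7 : W ≤ Q / V := by rw [le_div_iff₀ hV]; exact h2
  have e8 : W * f1 ^ 2 ≤ Q / V * f1 ^ 2 := mul_le_mul_of_nonneg_right e7 (sq_nonneg _)
  have e9 : f1 ^ 2 ≤ 2 * (f1 - f * V1 / V) ^ 2 + 2 * (f * V1 / V) ^ 2 := by
    nlinarith [sq_nonneg (f1 - f * V1 / V - f * V1 / V)]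
  have e10 : Q / V * f1 ^ 2 ≤ Q / V * (2 * (f1 - f * V1 / V) ^ 2 + 2 * (f * V1 / V) ^ 2) :=
    mul_le_mul_of_nonneg_left e9 (by positivity)
  have e11 : Q / V * (2 * (f1 - f * V1 / V) ^ 2 + 2 * (f * V1 / V) ^ 2) =
      Q * (2 / V * (f1 - f * V1 / V) ^ 2) + 2 * (Q / V) * (f * V1 / V) ^ 2 := by ring
  linarith

/-! ### Imaginary parts of holomorphic functions -/

/-- the upper half plane -/
def HP : Set ℂ := {ζ | 0 < ζ.im}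

lemma isOpen_HP : IsOpen HP := isOpen_lt continuous_const Complex.continuous_im

lemma mk_eq (z y : ℝ) : (⟨z, y⟩ : ℂ) = (z : ℂ) + (y : ℂ) * Complex.I :=
  Complex.mk_eq_add_mul_I z y

lemma hasDeriv_z {Φ : ℂ → ℂ} (hΦ : DifferentiableOn ℂ Φ HP) (z y : ℝ) (hy : 0 < y) :
    HasDerivAt (fun s : ℝ => Φ ⟨s, y⟩) (deriv Φ ⟨z, y⟩) z := by
  have h1 : HasDerivAt Φ (deriv Φ ⟨z, y⟩) ⟨z, y⟩ :=
    (hΦ.differentiableAt (isOpen_HP.mem_nhds hy)).hasDerivAt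
  have h2 : HasDerivAt (fun s : ℝ => (⟨s, y⟩ : ℂ)) 1 z := by
    simp only [mk_eq]
    exact (Complex.ofRealCLM.hasDerivAt (x := z)).add_const _
  have h3 := h1.scomp z h2
  rwa [one_smul] at h3

lemma hasDeriv_y {Φ : ℂ → ℂ} (hΦ : DifferentiableOn ℂ Φ HP) (z y : ℝ) (hy : 0 < y) :
    HasDerivAt (fun s : ℝ => Φ ⟨z, s⟩) (Complex.I * deriv Φ ⟨z, y⟩) y := by
  have h1 : HasDerivAt Φ (deriv Φ ⟨z, y⟩) ⟨z, y⟩ :=
    (hΦ.differentiableAt (isOpen_HP.mem_nhds hy)).hasDerivAt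
  have h2 : HasDerivAt (fun s : ℝ => (⟨z, s⟩ : ℂ)) Complex.I y := by
    simp only [mk_eq]
    have h := ((Complex.ofRealCLM.hasDerivAt (x := y)).mul_const Complex.I).const_add (z : ℂ)
    simpa using h
  have h3 := h1.scomp y h2
  rwa [smul_eq_mul] at h3

lemma hasDeriv_im {F : ℝ → ℂ} {F' : ℂ} {s : ℝ} (h : HasDerivAt F F' s) :
    HasDerivAt (fun t => (F t).im) F'.im s :=
  (Complex.imCLM.hasFDerivAt.comp_hasDerivAt s h)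

lemma hasDeriv_re {F : ℝ → ℂ} {F' : ℂ} {s : ℝ} (h : HasDerivAt F F' s) :
    HasDerivAt (fun t => (F t).re) F'.re s :=
  (Complex.reCLM.hasFDerivAt.comp_hasDerivAt s h)

lemma c2_z {Φ : ℂ → ℂ} (hΦ : DifferentiableOn ℂ Φ HP) (y : ℝ) (hy : 0 < y) :
    C2 univ (fun s => (Φ ⟨s, y⟩).im) (fun s => (deriv Φ ⟨s, y⟩).im)
      (fun s => (deriv (deriv Φ) ⟨s, y⟩).im) :=
  ⟨fun t _ => hasDeriv_im (hasDeriv_z hΦ t y hy),
    fun t _ => hasDeriv_im (hasDeriv_z (hΦ.deriv isOpen_HP) t y hy)⟩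

lemma c2_y {Φ : ℂ → ℂ} (hΦ : DifferentiableOn ℂ Φ HP) (z : ℝ) :
    C2 (Ioi 0) (fun s => (Φ ⟨z, s⟩).im) (fun s => (deriv Φ ⟨z, s⟩).re)
      (fun s => -(deriv (deriv Φ) ⟨z, s⟩).im) := by
  refine ⟨fun t ht => ?_, fun t ht => ?_⟩
  · have h := hasDeriv_im (hasDeriv_y hΦ z t ht)
    simpa using h
  · have h := hasDeriv_re (hasDeriv_y (hΦ.deriv isOpen_HP) z t ht)
    simpa using h

lemma cont_mk : Continuous fun q : ℝ × ℝ => (⟨q.1, q.2⟩ : ℂ) := by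
  simp only [mk_eq]
  fun_prop

lemma cont_im {Ψ : ℂ → ℂ} (hΨ : DifferentiableOn ℂ Ψ HP) :
    ContinuousOn (fun q : ℝ × ℝ => (Ψ ⟨q.1, q.2⟩).im) (univ ×ˢ Ioi 0) :=
  Complex.continuous_im.comp_continuousOn
    (hΨ.continuousOn.comp cont_mk.continuousOn fun q hq => hq.2)

lemma cont_re {Ψ : ℂ → ℂ} (hΨ : DifferentiableOn ℂ Ψ HP) :
    ContinuousOn (fun q : ℝ × ℝ => (Ψ ⟨q.1, q.2⟩).re) (univ ×ˢ Ioi 0) :=
  Complex.continuous_re.comp_continuousOn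
    (hΨ.continuousOn.comp cont_mk.continuousOn fun q hq => hq.2)

/-! ### The Bellman function -/

/-- the function `2 V - 1 / (W ^ 2 V)` -/
noncomputable def n0 (W V : ℝ) : ℝ := 2 * V - 1 / (W ^ 2 * V)

/-- its first derivative -/
noncomputable def n1 (W W1 V V1 : ℝ) : ℝ :=
  2 * V1 + 2 * W1 / (W ^ 3 * V) + V1 / (W ^ 2 * V ^ 2)

/-- first derivative of `f ^ 2 / X` -/
noncomputable def q1 (f f1 X X1 : ℝ) : ℝ := 2 * f * f1 / X - f ^ 2 * X1 / X ^ 2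

/-- the Bellman function -/
noncomputable def bb (Q F f W V : ℝ) : ℝ :=
  Q * (F - f ^ 2 / V) + 6 * Q ^ 3 * (F - f ^ 2 / n0 W V)

/-- its first derivative -/
noncomputable def b1 (Q F1 f f1 W W1 V V1 : ℝ) : ℝ :=
  Q * (F1 - q1 f f1 V V1) + 6 * Q ^ 3 * (F1 - q1 f f1 (n0 W V) (n1 W W1 V V1))

/-- its second derivative -/
noncomputable def b2 (Q F2 f f1 f2 W W1 W2 V V1 V2 : ℝ) : ℝ :=
  Q * (F2 - q2 f f1 f2 V V1 V2) +
    6 * Q ^ 3 * (F2 - q2 f f1 f2 (n0 W V) (n1 W W1 V V1) (n2 W W1 W2 V V1 V2))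

lemma n0_pos {W V : ℝ} (hW : 0 < W) (hV : 0 < V) (h1 : 1 ≤ W * V) : V ≤ n0 W V := by
  unfold n0
  have : 1 / (W ^ 2 * V) ≤ V := by
    rw [div_le_iff₀ (by positivity)]
    nlinarith
  linarith

lemma c2_b {S : Set ℝ} {Q : ℝ} {F F1 F2 f f1 f2 W W1 W2 V V1 V2 : ℝ → ℝ} (hF : C2 S F F1 F2)
    (hf : C2 S f f1 f2) (hW : C2 S W W1 W2) (hV : C2 S V V1 V2)
    (hW0 : ∀ t ∈ S, 0 < W t) (hV0 : ∀ t ∈ S, 0 < V t) (h1 : ∀ t ∈ S, 1 ≤ W t * V t) :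
    C2 S (fun t => bb Q (F t) (f t) (W t) (V t))
      (fun t => b1 Q (F1 t) (f t) (f1 t) (W t) (W1 t) (V t) (V1 t))
      (fun t => b2 Q (F2 t) (f t) (f1 t) (f2 t) (W t) (W1 t) (W2 t) (V t) (V1 t) (V2 t)) := by
  have hN := C2.nfun hW hV (fun t ht => (hW0 t ht).ne') (fun t ht => (hV0 t ht).ne')
  have hA := C2.quot hf hV (fun t ht => (hV0 t ht).ne')
  have hB := C2.quot hf hN (fun t ht => (lt_of_lt_of_le (hV0 t ht)
    (n0_pos (hW0 t ht) (hV0 t ht) (h1 t ht))).ne')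
  exact C2.comb hF hA hB Q (6 * Q ^ 3)

lemma b2_sum (Q F2 f f1 f1' f2 W W1 W1' W2 V V1 V1' V2 : ℝ) :
    -(b2 Q F2 f f1 f2 W W1 W2 V V1 V2 + b2 Q (-F2) f f1' (-f2) W W1' (-W2) V V1' (-V2)) =
    (Q * (2 / V * (f1 - f * V1 / V) ^ 2) + 6 * Q ^ 3 *
      (2 / n0 W V * (f1 - f * n1 W W1 V V1 / n0 W V) ^ 2 +
      f ^ 2 / n0 W V ^ 2 * (1 / (W ^ 2 * V) *
        (6 * (W1 / W) ^ 2 + 4 * (W1 / W) * (V1 / V) + 2 * (V1 / V) ^ 2)))) +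
    (Q * (2 / V * (f1' - f * V1' / V) ^ 2) + 6 * Q ^ 3 *
      (2 / n0 W V * (f1' - f * n1 W W1' V V1' / n0 W V) ^ 2 +
      f ^ 2 / n0 W V ^ 2 * (1 / (W ^ 2 * V) *
        (6 * (W1' / W) ^ 2 + 4 * (W1' / W) * (V1' / V) + 2 * (V1' / V) ^ 2)))) := by
  unfold b2 q2 n2
  ring

lemma b2_ineq (Q F2 f f1 f1' f2 W W1 W1' W2 V V1 V1' V2 : ℝ) (hW : 0 < W) (hV : 0 < V)
    (h1 : 1 ≤ W * V) (h2 : W * V ≤ Q) :
    W * (f1 ^ 2 + f1' ^ 2) ≤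
    -(b2 Q F2 f f1 f2 W W1 W2 V V1 V2 + b2 Q (-F2) f f1' (-f2) W W1' (-W2) V V1' (-V2)) := by
  rw [b2_sum]
  have hQ : 0 < Q := by linarith
  have hN : 0 < n0 W V := lt_of_lt_of_le hV (n0_pos hW hV h1)
  have e1 := dir_ineq Q f W V f1 W1 V1 hW hV h1 h2
  have e2 := dir_ineq Q f W V f1' W1' V1' hW hV h1 h2
  have e3 : 0 ≤ 6 * Q ^ 3 * (2 / n0 W V * (f1 - f * n1 W W1 V V1 / n0 W V) ^ 2) := by positivity
  have e4 : 0 ≤ 6 * Q ^ 3 * (2 / n0 W V * (f1' - f * n1 W W1' V V1' / n0 W V) ^ 2) := by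
    positivity
  change _ ≤ Q * (2 / V * (f1 - f * V1 / V) ^ 2) + 6 * Q ^ 3 *
      (f ^ 2 / n0 W V ^ 2 * (1 / (W ^ 2 * V) *
        (6 * (W1 / W) ^ 2 + 4 * (W1 / W) * (V1 / V) + 2 * (V1 / V) ^ 2))) at e1
  change _ ≤ Q * (2 / V * (f1' - f * V1' / V) ^ 2) + 6 * Q ^ 3 *
      (f ^ 2 / n0 W V ^ 2 * (1 / (W ^ 2 * V) *
        (6 * (W1' / W) ^ 2 + 4 * (W1' / W) * (V1' / V) + 2 * (V1' / V) ^ 2))) at e2
  linarith

lemma cont_q2 {s : Set (ℝ × ℝ)} {f f1 f2 X X1 X2 : ℝ × ℝ → ℝ} (hf : ContinuousOn f s)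
    (hf1 : ContinuousOn f1 s) (hf2 : ContinuousOn f2 s) (hX : ContinuousOn X s)
    (hX1 : ContinuousOn X1 s) (hX2 : ContinuousOn X2 s) (h0 : ∀ q ∈ s, X q ≠ 0) :
    ContinuousOn (fun q => q2 (f q) (f1 q) (f2 q) (X q) (X1 q) (X2 q)) s := by
  unfold q2
  exact ((((continuousOn_const (c := (2 : ℝ))).div hX h0).mul
    ((hf1.sub ((hf.mul hX1).div hX h0)).pow 2)).add
    ((((continuousOn_const (c := (2 : ℝ))).mul hf).mul hf2).div hX h0)).sub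
    (((hf.pow 2).mul hX2).div (hX.pow 2) fun q hq => pow_ne_zero 2 (h0 q hq))

lemma cont_b2 {s : Set (ℝ × ℝ)} (Q : ℝ) {F2 f f1 f2 W W1 W2 V V1 V2 : ℝ × ℝ → ℝ}
    (hF2 : ContinuousOn F2 s) (hf : ContinuousOn f s)
    (hf1 : ContinuousOn f1 s) (hf2 : ContinuousOn f2 s) (hW : ContinuousOn W s)
    (hW1 : ContinuousOn W1 s) (hW2 : ContinuousOn W2 s) (hV : ContinuousOn V s)
    (hV1 : ContinuousOn V1 s) (hV2 : ContinuousOn V2 s)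
    (hW0 : ∀ t ∈ s, 0 < W t) (hV0 : ∀ t ∈ s, 0 < V t) (h1 : ∀ t ∈ s, 1 ≤ W t * V t) :
    ContinuousOn (fun q => b2 Q (F2 q) (f q) (f1 q) (f2 q) (W q) (W1 q) (W2 q) (V q) (V1 q)
      (V2 q)) s := by
  have hWn : ∀ q ∈ s, W q ≠ 0 := fun q hq => (hW0 q hq).ne'
  have hVn : ∀ q ∈ s, V q ≠ 0 := fun q hq => (hV0 q hq).ne'
  have cN : ContinuousOn (fun q => n0 (W q) (V q)) s := by
    unfold n0
    exact ((continuousOn_const (c := (2 : ℝ))).mul hV).sub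
      ((continuousOn_const (c := (1 : ℝ))).div ((hW.pow 2).mul hV)
        fun q hq => mul_ne_zero (pow_ne_zero 2 (hWn q hq)) (hVn q hq))
  have cN1 : ContinuousOn (fun q => n1 (W q) (W1 q) (V q) (V1 q)) s := by
    unfold n1
    exact (((continuousOn_const (c := (2 : ℝ))).mul hV1).add
      (((continuousOn_const (c := (2 : ℝ))).mul hW1).div ((hW.pow 3).mul hV)
        fun q hq => mul_ne_zero (pow_ne_zero 3 (hWn q hq)) (hVn q hq))).add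
      (hV1.div ((hW.pow 2).mul (hV.pow 2))
        fun q hq => mul_ne_zero (pow_ne_zero 2 (hWn q hq)) (pow_ne_zero 2 (hVn q hq)))
  have cN2 : ContinuousOn (fun q => n2 (W q) (W1 q) (W2 q) (V q) (V1 q) (V2 q)) s := by
    unfold n2
    have ca : ContinuousOn (fun q => W1 q / W q) s := hW1.div hW hWn
    have cb : ContinuousOn (fun q => V1 q / V q) s := hV1.div hV hVn
    exact ((((continuousOn_const (c := (2 : ℝ))).mul hV2).add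
      (((continuousOn_const (c := (2 : ℝ))).mul hW2).div ((hW.pow 3).mul hV)
        fun q hq => mul_ne_zero (pow_ne_zero 3 (hWn q hq)) (hVn q hq))).add
      (hV2.div ((hW.pow 2).mul (hV.pow 2))
        fun q hq => mul_ne_zero (pow_ne_zero 2 (hWn q hq)) (pow_ne_zero 2 (hVn q hq)))).sub
      (((continuousOn_const (c := (1 : ℝ))).div ((hW.pow 2).mul hV)
        fun q hq => mul_ne_zero (pow_ne_zero 2 (hWn q hq)) (hVn q hq)).mul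
        ((((continuousOn_const (c := (6 : ℝ))).mul (ca.pow 2)).add
          (((continuousOn_const (c := (4 : ℝ))).mul ca).mul cb)).add
          ((continuousOn_const (c := (2 : ℝ))).mul (cb.pow 2))))
  unfold b2
  exact ((continuousOn_const (c := Q)).mul
    (hF2.sub (cont_q2 hf hf1 hf2 hV hV1 hV2 hVn))).add
    ((continuousOn_const (c := 6 * Q ^ 3)).mul
      (hF2.sub (cont_q2 hf hf1 hf2 cN cN1 cN2 fun q hq => (lt_of_lt_of_le (hV0 q hq)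
        (n0_pos (hW0 q hq) (hV0 q hq) (h1 q hq))).ne')))

lemma cont_bb {s : Set (ℝ × ℝ)} (Q : ℝ) {F f W V : ℝ × ℝ → ℝ}
    (hF : ContinuousOn F s) (hf : ContinuousOn f s) (hW : ContinuousOn W s)
    (hV : ContinuousOn V s)
    (hW0 : ∀ t ∈ s, 0 < W t) (hV0 : ∀ t ∈ s, 0 < V t) (h1 : ∀ t ∈ s, 1 ≤ W t * V t) :
    ContinuousOn (fun q => bb Q (F q) (f q) (W q) (V q)) s := by
  have hWn : ∀ q ∈ s, W q ≠ 0 := fun q hq => (hW0 q hq).ne'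
  have hVn : ∀ q ∈ s, V q ≠ 0 := fun q hq => (hV0 q hq).ne'
  have cN : ContinuousOn (fun q => n0 (W q) (V q)) s := by
    unfold n0
    exact ((continuousOn_const (c := (2 : ℝ))).mul hV).sub
      ((continuousOn_const (c := (1 : ℝ))).div ((hW.pow 2).mul hV)
        fun q hq => mul_ne_zero (pow_ne_zero 2 (hWn q hq)) (hVn q hq))
  unfold bb
  exact ((continuousOn_const (c := Q)).mul (hF.sub ((hf.pow 2).div hV hVn))).add
    ((continuousOn_const (c := 6 * Q ^ 3)).mul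
      (hF.sub ((hf.pow 2).div cN fun q hq => (lt_of_lt_of_le (hV0 q hq)
        (n0_pos (hW0 q hq) (hV0 q hq) (h1 q hq))).ne')))

/-- **BELL** -/
theorem t_BELL : S_BELL := by
  intro Q ΦF Φf ΦW ΦV hF hf hW hV hyp
  have hF : DifferentiableOn ℂ ΦF HP := hF
  have hf : DifferentiableOn ℂ Φf HP := hf
  have hW : DifferentiableOn ℂ ΦW HP := hW
  have hV : DifferentiableOn ℂ ΦV HP := hV
  have hyp' : ∀ z y : ℝ, 0 < y → 0 < (ΦW ⟨z, y⟩).im ∧ 0 < (ΦV ⟨z, y⟩).im ∧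
      1 ≤ (ΦW ⟨z, y⟩).im * (ΦV ⟨z, y⟩).im ∧ (ΦW ⟨z, y⟩).im * (ΦV ⟨z, y⟩).im ≤ Q ∧
      (Φf ⟨z, y⟩).im ^ 2 ≤ (ΦF ⟨z, y⟩).im * (ΦV ⟨z, y⟩).im := fun z y hy => hyp ⟨z, y⟩ hy
  have dF := hF.deriv isOpen_HP
  have df := hf.deriv isOpen_HP
  have dW := hW.deriv isOpen_HP
  have dV := hV.deriv isOpen_HP
  have ddF := dF.deriv isOpen_HP
  have ddf := df.deriv isOpen_HP
  have ddW := dW.deriv isOpen_HP
  have ddV := dV.deriv isOpen_HP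
  have hz : ∀ y : ℝ, 0 < y → _ := fun y hy => c2_b (Q := Q) (c2_z hF y hy) (c2_z hf y hy)
    (c2_z hW y hy) (c2_z hV y hy) (fun t _ => (hyp' t y hy).1) (fun t _ => (hyp' t y hy).2.1)
    (fun t _ => (hyp' t y hy).2.2.1)
  have hy' : ∀ z : ℝ, _ := fun z => c2_b (Q := Q) (c2_y hF z) (c2_y hf z)
    (c2_y hW z) (c2_y hV z) (fun t ht => (hyp' z t ht).1) (fun t ht => (hyp' z t ht).2.1)
    (fun t ht => (hyp' z t ht).2.2.1)
  refine ⟨fun z y => bb Q (ΦF ⟨z, y⟩).im (Φf ⟨z, y⟩).im (ΦW ⟨z, y⟩).im (ΦV ⟨z, y⟩).im,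
    fun z y => b1 Q (deriv ΦF ⟨z, y⟩).im (Φf ⟨z, y⟩).im (deriv Φf ⟨z, y⟩).im (ΦW ⟨z, y⟩).im
      (deriv ΦW ⟨z, y⟩).im (ΦV ⟨z, y⟩).im (deriv ΦV ⟨z, y⟩).im,
    fun z y => b2 Q (deriv (deriv ΦF) ⟨z, y⟩).im (Φf ⟨z, y⟩).im (deriv Φf ⟨z, y⟩).im
      (deriv (deriv Φf) ⟨z, y⟩).im (ΦW ⟨z, y⟩).im (deriv ΦW ⟨z, y⟩).im
      (deriv (deriv ΦW) ⟨z, y⟩).im (ΦV ⟨z, y⟩).im (deriv ΦV ⟨z, y⟩).im
      (deriv (deriv ΦV) ⟨z, y⟩).im,
    fun z y => b1 Q (deriv ΦF ⟨z, y⟩).re (Φf ⟨z, y⟩).im (deriv Φf ⟨z, y⟩).re (ΦW ⟨z, y⟩).im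
      (deriv ΦW ⟨z, y⟩).re (ΦV ⟨z, y⟩).im (deriv ΦV ⟨z, y⟩).re,
    fun z y => b2 Q (-(deriv (deriv ΦF) ⟨z, y⟩).im) (Φf ⟨z, y⟩).im (deriv Φf ⟨z, y⟩).re
      (-(deriv (deriv Φf) ⟨z, y⟩).im) (ΦW ⟨z, y⟩).im (deriv ΦW ⟨z, y⟩).re
      (-(deriv (deriv ΦW) ⟨z, y⟩).im) (ΦV ⟨z, y⟩).im (deriv ΦV ⟨z, y⟩).re
      (-(deriv (deriv ΦV) ⟨z, y⟩).im), ?_, ?_, ?_, ?_, ?_, ?_, ?_, ?_⟩
  · exact cont_bb Q (cont_im hF) (cont_im hf) (cont_im hW) (cont_im hV)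
      (fun q hq => (hyp' q.1 q.2 hq.2).1) (fun q hq => (hyp' q.1 q.2 hq.2).2.1)
      (fun q hq => (hyp' q.1 q.2 hq.2).2.2.1)
  · exact cont_b2 Q (cont_im ddF) (cont_im hf) (cont_im df) (cont_im ddf) (cont_im hW)
      (cont_im dW) (cont_im ddW) (cont_im hV) (cont_im dV) (cont_im ddV)
      (fun q hq => (hyp' q.1 q.2 hq.2).1) (fun q hq => (hyp' q.1 q.2 hq.2).2.1)
      (fun q hq => (hyp' q.1 q.2 hq.2).2.2.1)
  · exact cont_b2 Q (cont_im ddF).neg (cont_im hf) (cont_re df) (cont_im ddf).neg (cont_im hW)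
      (cont_re dW) (cont_im ddW).neg (cont_im hV) (cont_re dV) (cont_im ddV).neg
      (fun q hq => (hyp' q.1 q.2 hq.2).1) (fun q hq => (hyp' q.1 q.2 hq.2).2.1)
      (fun q hq => (hyp' q.1 q.2 hq.2).2.2.1)
  · intro z y hy
    exact (hz y hy).d1 z (mem_univ z)
  · intro z y hy
    exact (hz y hy).d2 z (mem_univ z)
  · intro z y hy
    exact (hy' z).d1 y hy
  · intro z y hy
    exact (hy' z).d2 y hy
  · intro z y hy
    obtain ⟨hW0, hV0, h1, h2, h3⟩ := hyp' z y hy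
    have hQ : 0 < Q := by linarith
    have hN := n0_pos hW0 hV0 h1
    have hN0 : 0 < n0 (ΦW ⟨z, y⟩).im (ΦV ⟨z, y⟩).im := lt_of_lt_of_le hV0 hN
    have e1 : (Φf ⟨z, y⟩).im ^ 2 / (ΦV ⟨z, y⟩).im ≤ (ΦF ⟨z, y⟩).im := by
      rw [div_le_iff₀ hV0]; exact h3
    have e2 : (Φf ⟨z, y⟩).im ^ 2 / n0 (ΦW ⟨z, y⟩).im (ΦV ⟨z, y⟩).im ≤
        (Φf ⟨z, y⟩).im ^ 2 / (ΦV ⟨z, y⟩).im :=
      div_le_div_of_nonneg_left (sq_nonneg _) hV0 hN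
    have e3 : 0 ≤ (Φf ⟨z, y⟩).im ^ 2 / (ΦV ⟨z, y⟩).im := by positivity
    have e4 : 0 ≤ (Φf ⟨z, y⟩).im ^ 2 / n0 (ΦW ⟨z, y⟩).im (ΦV ⟨z, y⟩).im := by positivity
    have hQ3 : 0 < 6 * Q ^ 3 := by positivity
    refine ⟨?_, ?_, ?_⟩
    · unfold bb
      have := mul_nonneg hQ.le (sub_nonneg.2 e1)
      have := mul_nonneg hQ3.le (sub_nonneg.2 (e2.trans e1))
      linarith
    · unfold bb
      have := mul_nonneg hQ.le e3
      have := mul_nonneg hQ3.le e4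
      linarith
    · have e5 : ‖deriv Φf ⟨z, y⟩‖ ^ 2 =
          (deriv Φf ⟨z, y⟩).im ^ 2 + (deriv Φf ⟨z, y⟩).re ^ 2 := by
        rw [← Complex.normSq_eq_norm_sq, Complex.normSq_apply]; ring
      rw [e5]
      exact b2_ineq _ _ _ _ _ _ _ _ _ _ _ _ _ _ hW0 hV0 h1 h2

end Pool.Agent.K3h33.GL
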